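import Pool.Agent.Helper30.UB.St

/-!
# Project UB, module LCM: the monic least common multiple
-/

set_option autoImplicit false

open Polynomial Finset

namespace Pool.Agent.Helper99.UB

open Pool.Agent.Helper15.FC Pool.Agent.Helper30.UB

open scoped Classical in
private theorem nd_norm {F : Type} [Field F] (p : F[X]) :
    (normalize p).natDegree = p.natDegree :=
  natDegree_eq_of_degree_eq degree_normalize

open scoped Classical in
theorem hLCM : StLCM := by
  intro F _ U P hU hP
  have hU0 := hU.ne_zero
  have hP0 := hP.ne_zero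
  have h0 : EuclideanDomain.lcm U P ≠ 0 := by
    intro h
    rw [EuclideanDomain.lcm_eq_zero_iff] at h
    rcases h with h | h
    · exact hU0 h
    · exact hP0 h
  have hg : EuclideanDomain.gcd U P ≠ 0 := by
    intro h
    rw [EuclideanDomain.gcd_eq_zero_iff] at h
    exact hU0 h.1
  refine ⟨?_, fun A => ?_, normalize (EuclideanDomain.gcd U P), monic_normalize hg, ?_, ?_, ?_⟩
  · unfold lc
    exact monic_normalize h0
  · unfold lc
    rw [normalize_dvd_iff]
    exact EuclideanDomain.lcm_dvd_iff
  · rw [normalize_dvd_iff]
    exact EuclideanDomain.gcd_dvd_left U P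
  · rw [normalize_dvd_iff]
    exact EuclideanDomain.gcd_dvd_right U P
  · unfold lc
    rw [nd_norm, nd_norm, ← natDegree_mul h0 hg, ← natDegree_mul hU0 hP0, mul_comm,
      EuclideanDomain.gcd_mul_lcm]

end Pool.Agent.Helper99.UB
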